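import Mathlib
import Pool.Agent.Helper92.HN.Clos2
import Pool.Agent.Helper28.H2.Orb
import Pool.Agent.Helper47.H2.Swp
import Pool.Agent.Helper38.HN.Points
import Pool.Agent.Helper23.H2.Dbl

/-!
# Project H2: functions which vanish on all curves of the chain
-/

namespace Pool.Agent.Helper92.H2

open MvPolynomial Pool.Agent.Helper24.H2 Pool.Agent.Helper28.H2 Pool.Agent.Helper47.H2
open Pool.Agent.Helper23.H2
open Pool.Agent.Helper28.HN (I Un En cr aff)
open Pool.Agent.Helper38.HN (val toFrac toFrac_injective val_generic)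
open Pool.Agent.Helper92.HN (exists_homog ixs ixt ixs_even ixs_odd ixt_even ixt_odd ixs_inj ixt_inj
  pr_comm toFrac_C fin_of)
open Pool.Agent.Helper23.HNG (sp sp_gram)

section rel

variable {m : ℕ}

/-- The forms `gG` vanish at the start point `y1`. -/
theorem gG_start {S : Type*} [Field S] (c : Ix m → S) (x0 ξ0 y1 : I m → S) (x00 : x0 0 = 1)
    (ξ00 : ξ0 0 = 0) (hξ : ξ0 ≠ 0) (l0 : ∀ r, ly c r x0 y1 = 0) (l1 : ∀ r, ly c r ξ0 y1 = 0)
    (q0 : sf c x0 x0 y1 = 0) (q1 : sf c x0 ξ0 y1 = 0) (q2 : sf c ξ0 ξ0 y1 = 0)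
    (p : I m × I m) : gG c y1 p = 0 := by
  obtain ⟨l, hl⟩ := Function.ne_iff.mp hξ
  have h := sp_gram (Mq_symm c y1) (isLine_x c l0) (isLine_x c l1) (by rw [← sf_eq]; exact q0)
    0 l p.1 p.2
  have h1 : sp (Mq c y1) ξ0 x0 = 0 := by
    funext i
    rw [sp, ← sf_eq, ← sf_eq, q1, q2]
    simp
  rw [h1, x00, ξ00] at h
  have h2 : Pool.Agent.Helper37.RP.pr x0 (0 : I m → S) p.1 p.2 = 0 := by
    simp [Pool.Agent.Helper37.RP.pr]
  rw [h2, mul_zero] at h
  rw [gG_eq]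
  have h3 : (1 * ξ0 l - x0 l * 0) ^ 2 ≠ 0 := by
    rw [one_mul, mul_zero, sub_zero]
    exact pow_ne_zero 2 hl
  exact (mul_eq_zero.mp h.symm).resolve_left h3

theorem sf_zero1 {S : Type*} [CommRing S] (c : Ix m → S) (x x' y : I m → S) (h : x = 0) :
    sf c x x' y = 0 := by
  subst h
  simp [sf]

theorem tf_zero2 {S : Type*} [CommRing S] (c : Ix m → S) (x y y' : I m → S) (h : y = 0) :
    tf c x y y' = 0 := by
  subst h
  simp [tf]

theorem onX_scale {S : Type*} [CommRing S] {c : Ix m → S} (a b : S) {x y : I m → S}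
    (h : OnX c x y) : OnX c (fun i => a * x i) (fun i => b * y i) := by
  refine ⟨fun r => ?_, ?_, ?_⟩
  · rw [bf_smul_left, bf_smul_right, h.1 r, mul_zero, mul_zero]
  · rw [sf_smul1, sf_smul2, sf_smul3, h.2.1, mul_zero, mul_zero, mul_zero]
  · rw [tf_smul1, tf_smul2, tf_smul3, h.2.2, mul_zero, mul_zero, mul_zero]

/-- The point of a curve on the complete intersection. -/
theorem chart_point {K' : Type*} [Field K'] {c : Ix m → K'} {X Y : I m → Polynomial K'}
    (h : OnX (fun e => Polynomial.C (c e)) X Y) {B : Type*} [Field B] (φ : Polynomial K' →+* B)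
    (hx : φ (X 0) ≠ 0) (hy : φ (Y 0) ≠ 0) :
    OnX (fun e => φ (Polynomial.C (c e))) (aff fun i : Fin (m + 1) => φ (X i.succ) / φ (X 0))
      (aff fun i : Fin (m + 1) => φ (Y i.succ) / φ (Y 0)) := by
  have h1 := Pool.Agent.Helper47.H2.OnX.map φ h
  have h2 := onX_scale (φ (X 0))⁻¹ (φ (Y 0))⁻¹ h1
  rw [← Pool.Agent.Helper92.HN.aff_div (fun i => φ (X i)) hx,
    ← Pool.Agent.Helper92.HN.aff_div (fun i => φ (Y i)) hy] at h2
  exact h2

theorem onX_nx (hm : 1 ≤ m) {S : Type*} [CommRing S] {c : Ix m → S} {x y : I m → S}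
    (h : OnX c x y) : OnX c (nx c x y) y := by
  have e : nx c x y = fun i => sf c (xh c y) (xh c y) y * x i +
      (-(2 * sf c x (xh c y) y)) * xh c y i := by
    funext i
    unfold nx
    ring
  rw [onX_iff_ly c hm]
  refine ⟨fun r => ?_, ?_⟩
  · rw [e, Pool.Agent.Helper47.H2.ly_add, Pool.Agent.Helper47.H2.ly_smul,
      Pool.Agent.Helper47.H2.ly_smul, OnX.ly h, Pool.Agent.Helper47.H2.ly_xh]
    ring
  · rw [e, sf_add1, sf_add2, sf_add2, sf_smul1, sf_smul2, sf_smul1, sf_smul2, sf_smul1, sf_smul2,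
      sf_smul1, sf_smul2, sf_symm c (xh c y) x, h.2.1]
    ring

theorem onX_ny (hm : 1 ≤ m) {S : Type*} [CommRing S] {c : Ix m → S} {x y : I m → S}
    (h : OnX c x y) : OnX c x (ny c x y) := by
  have e : ny c x y = fun i => Ah c x * y i + (-(2 * tf c x y (Y1 c x))) * Y1 c x i := by
    funext i
    unfold ny
    ring
  rw [onX_iff_lx c hm]
  refine ⟨fun r => ?_, ?_⟩
  · rw [e, Pool.Agent.Helper47.H2.lx_add, Pool.Agent.Helper47.H2.lx_smul,
      Pool.Agent.Helper47.H2.lx_smul, OnX.lx h, Pool.Agent.Helper47.H2.lx_Y1]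
    ring
  · rw [e, tf_add2, tf_add3, tf_add3, tf_smul2, tf_smul3, tf_smul2, tf_smul3, tf_smul2, tf_smul3,
      tf_smul2, tf_smul3, tf_symm c x (Y1 c x) y, h.2.2, Ah]
    ring

/-- All curves of the chain lie on the complete intersection. -/
theorem onX_ch (hm : 1 ≤ m) {S : Type*} [CommRing S] {c : Ix m → S} {x0 ξ0 y1 : I m → S}
    (l0 : ∀ r, bf c r x0 y1 = 0) (l1 : ∀ r, bf c r ξ0 y1 = 0) (q0 : tf c x0 y1 y1 = 0)
    (q1 : tf c ξ0 y1 y1 = 0) (s0 : sf c x0 x0 y1 = 0) (s1 : sf c x0 ξ0 y1 = 0)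
    (s2 : sf c ξ0 ξ0 y1 = 0) (N : ℕ) :
    OnX (fun e => Polynomial.C (c e)) (ch c x0 ξ0 y1 N).1 (ch c x0 ξ0 y1 N).2 := by
  induction N with
  | zero =>
    have e : (ch c x0 ξ0 y1 0).1 = fun i => Polynomial.C (x0 i) +
        Polynomial.X * Polynomial.C (ξ0 i) := rfl
    have e2 : (ch c x0 ξ0 y1 0).2 = fun i => Polynomial.C (y1 i) := rfl
    have hb : ∀ (r : Bi m) (a b : I m → S), bf (fun e => Polynomial.C (c e)) r
        (fun i => Polynomial.C (a i)) (fun i => Polynomial.C (b i)) =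
        Polynomial.C (bf c r a b) := fun r a b =>
      (Pool.Agent.Helper47.H2.map_bf Polynomial.C c r a b).symm
    have hs : ∀ a a' b : I m → S, sf (fun e => Polynomial.C (c e))
        (fun i => Polynomial.C (a i)) (fun i => Polynomial.C (a' i))
        (fun i => Polynomial.C (b i)) = Polynomial.C (sf c a a' b) := fun a a' b =>
      (Pool.Agent.Helper47.H2.map_sf Polynomial.C c a a' b).symm
    have ht : ∀ a b b' : I m → S, tf (fun e => Polynomial.C (c e))
        (fun i => Polynomial.C (a i)) (fun i => Polynomial.C (b i))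
        (fun i => Polynomial.C (b' i)) = Polynomial.C (tf c a b b') := fun a b b' =>
      (Pool.Agent.Helper47.H2.map_tf Polynomial.C c a b b').symm
    rw [e, e2]
    refine ⟨fun r => ?_, ?_, ?_⟩
    · rw [bf_add_left, bf_smul_left, hb, hb, l0, l1]
      simp
    · rw [sf_add1, sf_add2, sf_add2, sf_smul1, sf_smul2, sf_smul1, sf_smul2, hs, hs, hs, hs, s0,
        s1, s2, sf_symm c ξ0 x0, s1]
      simp
    · rw [tf_add1, tf_smul1, ht, ht, q0, q1]
      simp
  | succ N ih =>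
    rw [ch]
    split_ifs with hN
    · exact onX_ny hm ih
    · exact onX_nx hm ih

end rel

section main

variable {m : ℕ} {K' k : Type} [Field K'] [Field k] [Algebra K' k]

/-- The curve `N` over the function field. -/
noncomputable def Xo (k : Type) [Field k] [Algebra K' k] (c : Ix m → K') (x0 ξ0 y1 : I m → K')
    (N : ℕ) (i : I m) : FractionRing (Polynomial k) := toFrac K' k ((ch c x0 ξ0 y1 N).1 i)

/-- The curve `N` over the function field. -/
noncomputable def Yo (k : Type) [Field k] [Algebra K' k] (c : Ix m → K') (x0 ξ0 y1 : I m → K')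
    (N : ℕ) (i : I m) : FractionRing (Polynomial k) := toFrac K' k ((ch c x0 ξ0 y1 N).2 i)

variable {c : Ix m → K'} {x0 ξ0 y1 : I m → K'}

theorem ch_odd_x {N : ℕ} (h : N % 2 = 0) : (ch c x0 ξ0 y1 (N + 1)).1 = (ch c x0 ξ0 y1 N).1 := by
  rw [ch, if_pos h]

theorem ch_odd_y {N : ℕ} (h : N % 2 = 0) : (ch c x0 ξ0 y1 (N + 1)).2 =
    ny (fun e => Polynomial.C (c e)) (ch c x0 ξ0 y1 N).1 (ch c x0 ξ0 y1 N).2 := by
  rw [ch, if_pos h]

theorem ch_even_x {N : ℕ} (h : N % 2 = 1) : (ch c x0 ξ0 y1 (N + 1)).1 =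
    nx (fun e => Polynomial.C (c e)) (ch c x0 ξ0 y1 N).1 (ch c x0 ξ0 y1 N).2 := by
  rw [ch, if_neg (by omega)]

theorem ch_even_y {N : ℕ} (h : N % 2 = 1) : (ch c x0 ξ0 y1 (N + 1)).2 = (ch c x0 ξ0 y1 N).2 := by
  rw [ch, if_neg (by omega)]

/-- The points over `Yo N`. -/
theorem rel_x (ho : Orb (k := k) c x0 ξ0 y1) (hξ : ξ0 ≠ 0)
    (hon : ∀ N, OnX (fun e => Polynomial.C (c e)) (ch c x0 ξ0 y1 N).1 (ch c x0 ξ0 y1 N).2)
    (N : ℕ) : ∃ l : FractionRing (Polynomial k), ∀ p,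
      aeval (Yo k c x0 ξ0 y1 N) (cG (fun e => algebraMap K' k (c e)) p) =
        l * Pool.Agent.Helper47.NI.pr (Xo k c x0 ξ0 y1 N) (Xo k c x0 ξ0 y1 (ixs N)) p := by
  have hinj := toFrac_injective (K' := K') k
  have ec : (fun e => algebraMap k (FractionRing (Polynomial k)) (algebraMap K' k (c e))) =
      fun e => toFrac K' k (Polynomial.C (c e)) := by
    funext e
    rw [toFrac_C]
  have hodd : ∀ N, N % 2 = 1 → ∃ l : FractionRing (Polynomial k), ∀ p,
      aeval (Yo k c x0 ξ0 y1 N) (cG (fun e => algebraMap K' k (c e)) p) =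
        l * Pool.Agent.Helper47.NI.pr (Xo k c x0 ξ0 y1 N) (Xo k c x0 ξ0 y1 (N + 1)) p := by
    intro N hN
    have hO : OnX (fun e => toFrac K' k (Polynomial.C (c e))) (Xo k c x0 ξ0 y1 N)
        (Yo k c x0 ξ0 y1 N) := OnX.map (toFrac K' k) (hon N)
    have hex : (fun i => toFrac K' k (xh (fun e => Polynomial.C (c e)) (ch c x0 ξ0 y1 N).2 i)) =
        xh (fun e => toFrac K' k (Polynomial.C (c e))) (Yo k c x0 ξ0 y1 N) := by
      funext i
      exact Pool.Agent.Helper47.H2.map_xh (toFrac K' k) _ _ i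
    have hw : ∃ j l, Xo k c x0 ξ0 y1 N j *
        xh (fun e => toFrac K' k (Polynomial.C (c e))) (Yo k c x0 ξ0 y1 N) l -
        Xo k c x0 ξ0 y1 N l *
        xh (fun e => toFrac K' k (Polynomial.C (c e))) (Yo k c x0 ξ0 y1 N) j ≠ 0 := by
      have h1 : xh (fun e => Polynomial.C (c e)) (ch c x0 ξ0 y1 N).2 ≠ 0 := fun h =>
        ho.hK N (by omega) (sf_zero1 _ _ _ _ h)
      obtain ⟨l, hl⟩ := Function.ne_iff.mp h1
      refine ⟨0, l, ?_⟩
      have h2 : xh (fun e => toFrac K' k (Polynomial.C (c e))) (Yo k c x0 ξ0 y1 N) 0 = 0 := rfl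
      rw [h2, mul_zero, sub_zero, ← hex]
      refine mul_ne_zero ?_ ?_
      · exact (map_ne_zero_iff _ hinj).mpr (ho.hx N)
      · exact (map_ne_zero_iff _ hinj).mpr hl
    obtain ⟨t, ht⟩ := gG_nx _ hO hw
    refine ⟨t, fun p => ?_⟩
    rw [Pool.Agent.Helper23.H2.aeval_cG, ec, ht]
    congr 2
    funext i
    rw [Xo, ch_even_x hN]
    exact (Pool.Agent.Helper47.H2.map_nx (toFrac K' k) _ _ _ i).symm
  rcases Nat.eq_zero_or_pos N with h0 | h0
  · subst h0
    refine ⟨0, fun p => ?_⟩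
    rw [zero_mul, Pool.Agent.Helper23.H2.aeval_cG, ec]
    have hl : ∀ x, (∀ r, bf c r x y1 = 0) → tf c x y1 y1 = 0 → ∀ r, ly c r x y1 = 0 := by
      intro x h1 h2 r
      unfold ly
      split_ifs with h
      · exact h1 _
      · exact h2
    have h := gG_start c x0 ξ0 y1 ho.x00 ho.ξ00 hξ (hl _ ho.l0 ho.q0) (hl _ ho.l1 ho.q1)
      ho.s0 ho.s1 ho.s2 p
    have h2 := Pool.Agent.Helper23.H2.map_gG ((toFrac K' k).comp Polynomial.C) c y1 p
    rw [h, map_zero] at h2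
    exact h2.symm
  · rcases Nat.mod_two_eq_zero_or_one N with h2 | h2
    · obtain ⟨n, rfl⟩ : ∃ n, N = n + 1 := ⟨N - 1, by omega⟩
      obtain ⟨l, hl⟩ := hodd n (by omega)
      refine ⟨l, fun p => ?_⟩
      have e1 : ixs (n + 1) = n := by rw [ixs_even h2 (by omega)]; omega
      have e2 : Yo k c x0 ξ0 y1 (n + 1) = Yo k c x0 ξ0 y1 n := by
        funext i
        rw [Yo, ch_even_y (by omega)]
        rfl
      rw [e1, e2, hl, pr_comm]
    · rw [ixs_odd h2]
      exact hodd N h2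

/-- The points over `Xo N`. -/
theorem rel_y (ho : Orb (k := k) c x0 ξ0 y1)
    (hon : ∀ N, OnX (fun e => Polynomial.C (c e)) (ch c x0 ξ0 y1 N).1 (ch c x0 ξ0 y1 N).2)
    (N : ℕ) : ∃ l : FractionRing (Polynomial k), ∀ p,
      aeval (Xo k c x0 ξ0 y1 N) (cG (swc fun e => algebraMap K' k (c e)) p) =
        l * Pool.Agent.Helper47.NI.pr (Yo k c x0 ξ0 y1 N) (Yo k c x0 ξ0 y1 (ixt N)) p := by
  have hinj := toFrac_injective (K' := K') k
  have ec : (fun e => algebraMap k (FractionRing (Polynomial k))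
      (swc (fun e => algebraMap K' k (c e)) e)) =
      swc fun e => toFrac K' k (Polynomial.C (c e)) := by
    funext e
    simp only [swc]
    rw [toFrac_C]
  have heven : ∀ N, N % 2 = 0 → ∃ l : FractionRing (Polynomial k), ∀ p,
      aeval (Xo k c x0 ξ0 y1 N) (cG (swc fun e => algebraMap K' k (c e)) p) =
        l * Pool.Agent.Helper47.NI.pr (Yo k c x0 ξ0 y1 N) (Yo k c x0 ξ0 y1 (N + 1)) p := by
    intro N hN
    have hO : OnX (fun e => toFrac K' k (Polynomial.C (c e))) (Xo k c x0 ξ0 y1 N)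
        (Yo k c x0 ξ0 y1 N) := OnX.map (toFrac K' k) (hon N)
    have hex : (fun i => toFrac K' k (Y1 (fun e => Polynomial.C (c e)) (ch c x0 ξ0 y1 N).1 i)) =
        Y1 (fun e => toFrac K' k (Polynomial.C (c e))) (Xo k c x0 ξ0 y1 N) := by
      funext i
      exact Pool.Agent.Helper47.H2.map_Y1 (toFrac K' k) _ _ i
    have hw : ∃ j l, Yo k c x0 ξ0 y1 N j *
        Y1 (fun e => toFrac K' k (Polynomial.C (c e))) (Xo k c x0 ξ0 y1 N) l -
        Yo k c x0 ξ0 y1 N l *
        Y1 (fun e => toFrac K' k (Polynomial.C (c e))) (Xo k c x0 ξ0 y1 N) j ≠ 0 := by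
      have h1 : Y1 (fun e => Polynomial.C (c e)) (ch c x0 ξ0 y1 N).1 ≠ 0 := fun h =>
        ho.hA N (tf_zero2 _ _ _ _ h)
      obtain ⟨l, hl⟩ := Function.ne_iff.mp h1
      refine ⟨0, l, ?_⟩
      have h2 : Y1 (fun e => toFrac K' k (Polynomial.C (c e))) (Xo k c x0 ξ0 y1 N) 0 = 0 := rfl
      rw [h2, mul_zero, sub_zero, ← hex]
      refine mul_ne_zero ?_ ?_
      · exact (map_ne_zero_iff _ hinj).mpr (ho.hy N)
      · exact (map_ne_zero_iff _ hinj).mpr hl
    obtain ⟨t, ht⟩ := gG_ny _ hO hw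
    refine ⟨t, fun p => ?_⟩
    rw [Pool.Agent.Helper23.H2.aeval_cG, ec, ht]
    congr 2
    funext i
    rw [Yo, ch_odd_y hN]
    exact (Pool.Agent.Helper47.H2.map_ny (toFrac K' k) _ _ _ i).symm
  rcases Nat.mod_two_eq_zero_or_one N with h2 | h2
  · rw [ixt_even h2]
    exact heven N h2
  · obtain ⟨n, rfl⟩ : ∃ n, N = n + 1 := ⟨N - 1, by omega⟩
    obtain ⟨l, hl⟩ := heven n (by omega)
    refine ⟨l, fun p => ?_⟩
    have e1 : ixt (n + 1) = n := by rw [ixt_odd h2]; omega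
    have e2 : Xo k c x0 ξ0 y1 (n + 1) = Xo k c x0 ξ0 y1 n := by
      funext i
      rw [Xo, ch_odd_x (by omega)]
      rfl
    rw [e1, e2, hl, pr_comm]

end main

section final

variable {m : ℕ} {K K' k : Type} [Field K] [Field K'] [Field k] [Algebra K K'] [Algebra K' k]

/-- A function which vanishes on all curves of the chain is zero on the complete intersection, up
to denominators over `x` or over `y`. -/
theorem closure_F [IsAlgClosed k] [CharZero k] (hm : 1 ≤ m) (c : Ix m → K)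
    (x0 ξ0 y1 : I m → K') (ho : Orb (k := k) (fun e => algebraMap K K' (c e)) x0 ξ0 y1)
    (hξ : ξ0 ≠ 0)
    (hon : ∀ N, OnX (fun e => Polynomial.C (algebraMap K K' (c e)))
      (ch (fun e => algebraMap K K' (c e)) x0 ξ0 y1 N).1
      (ch (fun e => algebraMap K K' (c e)) x0 ξ0 y1 N).2)
    (hd : (dblX hm fun e => algebraMap K' k (algebraMap K K' (c e))).Dense)
    (hd' : (dblX hm fun e => algebraMap K' k (algebraMap K K' (c e))).swap.Dense)
    (hns : NS c) (hns' : NS fun e => c (swp e))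
    (F : MvPolynomial (Fin (m + 1) ⊕ Fin (m + 1)) K)
    (hF : ∀ N, val (toFrac K' k) (ch (fun e => algebraMap K K' (c e)) x0 ξ0 y1 N).1
      (ch (fun e => algebraMap K K' (c e)) x0 ξ0 y1 N).2 F = 0) :
    (∃ n : ℕ, ∀ (S : Type) [CommRing S] [Algebra K S] (x y : Fin (m + 1) → S),
      OnX (fun e => algebraMap K S (c e)) (aff x) (aff y) →
        (aeval x (Ap c) * aeval x (Dp c)) ^ n * aeval (Sum.elim x y) F = 0) ∨
    (∃ n : ℕ, ∀ (S : Type) [CommRing S] [Algebra K S] (x y : Fin (m + 1) → S),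
      OnX (fun e => algebraMap K S (c e)) (aff x) (aff y) →
        (aeval y (Ap fun e => c (swp e)) * aeval y (Dp fun e => c (swp e))) ^ n *
          aeval (Sum.elim x y) F = 0) := by
  obtain ⟨N1, h1, h1'⟩ := exists_normpoly.{0, 0} c hns F
  obtain ⟨N2, h2, h2'⟩ := exists_normpoly'.{0, 0} c hns' F
  by_cases hN1 : N1 = 0
  · exact Or.inl (h1' hN1)
  by_cases hN2 : N2 = 0
  · exact Or.inr (h2' hN2)
  exfalso
  set cK : Ix m → K' := fun e => algebraMap K K' (c e) with hcK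
  set φ := toFrac K' k with hφ
  have hinj : Function.Injective φ := toFrac_injective (K' := K') k
  letI : Algebra K (FractionRing (Polynomial k)) :=
    (φ.comp (Polynomial.C.comp (algebraMap K K'))).toAlgebra
  obtain ⟨d1, H1, hH1, hH1N, hH1v⟩ := exists_homog N1
  obtain ⟨d2, H2, hH2, hH2N, hH2v⟩ := exists_homog N2
  let ι : K →+* k := (algebraMap K' k).comp (algebraMap K K')
  have hmap : ∀ (v : I m → FractionRing (Polynomial k)) (H : MvPolynomial (I m) K),
      aeval v (MvPolynomial.map ι H) = aeval v H := by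
    intro v H
    rw [aeval_def, aeval_def, eval₂_map]
    congr 1
    ext a
    exact (toFrac_C (k := k) (algebraMap K K' a)).symm
  have hX0 : ∀ N, Xo k cK x0 ξ0 y1 N 0 ≠ 0 := fun N => (map_ne_zero_iff _ hinj).mpr (ho.hx N)
  have hY0 : ∀ N, Yo k cK x0 ξ0 y1 N 0 ≠ 0 := fun N => (map_ne_zero_iff _ hinj).mpr (ho.hy N)
  have hO : ∀ N, OnX (fun e => algebraMap K (FractionRing (Polynomial k)) (c e))
      (aff fun i : Fin (m + 1) => Xo k cK x0 ξ0 y1 N i.succ / Xo k cK x0 ξ0 y1 N 0)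
      (aff fun i : Fin (m + 1) => Yo k cK x0 ξ0 y1 N i.succ / Yo k cK x0 ξ0 y1 N 0) :=
    fun N => chart_point (hon N) φ (hX0 N) (hY0 N)
  have hFv : ∀ N, aeval (Sum.elim
      (fun i : Fin (m + 1) => Xo k cK x0 ξ0 y1 N i.succ / Xo k cK x0 ξ0 y1 N 0)
      (fun i : Fin (m + 1) => Yo k cK x0 ξ0 y1 N i.succ / Yo k cK x0 ξ0 y1 N 0)) F = 0 :=
    fun N => hF N
  refine Pool.Agent.Helper47.NI.closure (k := k) (by norm_num) (by omega) (by omega)
    (dblX hm fun e => algebraMap K' k (cK e)) hd hd'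
    (Xo k cK x0 ξ0 y1) (Yo k cK x0 ξ0 y1) ixs ixt ixs_inj ixt_inj
    (rel_x ho hξ hon) (rel_y ho hon)
    (fun F1 F2 e1 e2 a b ab => fin_of (fun N => (ch cK x0 ξ0 y1 N).1) F1 F2
      (ho.fX F1 F2 e1 e2 a b ab))
    (fun F1 F2 e1 e2 a b ab => fin_of (fun N => (ch cK x0 ξ0 y1 N).2) F1 F2
      (ho.fY F1 F2 e1 e2 a b ab))
    (h := MvPolynomial.map ι H1) (g := MvPolynomial.map ι H2) (hH1.map ι) (hH2.map ι) ?_ ?_ ?_ ?_
  · intro h0
    refine hN1 ?_
    rw [← hH1N, (map_eq_zero_iff _ (map_injective ι ι.injective)).mp h0, map_zero]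
  · intro h0
    refine hN2 ?_
    rw [← hH2N, (map_eq_zero_iff _ (map_injective ι ι.injective)).mp h0, map_zero]
  · intro N
    rw [hmap, hH1v _ _ (hX0 N), h1 _ _ _ (hO N) (hFv N), mul_zero]
  · intro N
    rw [hmap, hH2v _ _ (hY0 N), h2 _ _ _ (hO N) (hFv N), mul_zero]

end final

end Pool.Agent.Helper92.H2
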