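import Mathlib
import Pool.Agent.Helper24.H2.Defs
import Pool.Agent.Helper47.HN.MapL

/-!
# Project H2: the generic chart ideal is prime
-/

namespace Pool.Agent.Helper92.H2

open MvPolynomial Pool.Agent.Helper24.H2
open Pool.Agent.Helper28.HN (I Un En cr aff)

section linear

variable {m : ℕ} {S : Type*} [CommRing S]

theorem bf_addc (c c' : Ix m → S) (r : Bi m) (x y : I m → S) :
    bf (fun e => c e + c' e) r x y = bf c r x y + bf c' r x y := by
  simp only [bf, add_mul, Finset.sum_add_distrib]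

theorem sf_addc (c c' : Ix m → S) (x x' y : I m → S) :
    sf (fun e => c e + c' e) x x' y = sf c x x' y + sf c' x x' y := by
  simp only [sf, ← Finset.sum_add_distrib]
  refine Finset.sum_congr rfl fun i _ => Finset.sum_congr rfl fun j _ =>
    Finset.sum_congr rfl fun k _ => ?_
  ring

theorem tf_addc (c c' : Ix m → S) (x y y' : I m → S) :
    tf (fun e => c e + c' e) x y y' = tf c x y y' + tf c' x y y' := by
  simp only [tf, ← Finset.sum_add_distrib]
  refine Finset.sum_congr rfl fun i _ => Finset.sum_congr rfl fun j _ =>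
    Finset.sum_congr rfl fun k _ => ?_
  ring

/-- Coefficients with support at the first coefficient of every form. -/
def sp0 (v : Bi m → S) (w w' : S) : Ix m → S
  | .inl (r, i, j) => if i = 0 ∧ j = 0 then v r else 0
  | .inr (.inl (i, j, k)) => if i = 0 ∧ j = 0 ∧ k = 0 then w else 0
  | .inr (.inr (i, j, k)) => if i = 0 ∧ j = 0 ∧ k = 0 then w' else 0

theorem bf_sp0 (v : Bi m → S) (w w' : S) (r : Bi m) (x y : I m → S) :
    bf (sp0 v w w') r x y = v r * x 0 * y 0 := by
  unfold bf
  rw [Finset.sum_eq_single 0]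
  · rw [Finset.sum_eq_single 0]
    · simp [sp0]
    · intro j _ hj
      simp [sp0, hj]
    · simp
  · intro i _ hi
    refine Finset.sum_eq_zero fun j _ => ?_
    simp [sp0, hi]
  · simp

theorem sf_sp0 (v : Bi m → S) (w w' : S) (x x' y : I m → S) :
    sf (sp0 v w w') x x' y = 2 * w * x 0 * x' 0 * y 0 := by
  unfold sf
  rw [Finset.sum_eq_single 0]
  · rw [Finset.sum_eq_single 0]
    · rw [Finset.sum_eq_single 0]
      · simp only [sp0, and_self, if_true]
        ring
      · intro k _ hk
        simp [sp0, hk]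
      · simp
    · intro j _ hj
      refine Finset.sum_eq_zero fun k _ => ?_
      simp [sp0, hj]
    · simp
  · intro i _ hi
    refine Finset.sum_eq_zero fun j _ => Finset.sum_eq_zero fun k _ => ?_
    simp [sp0, hi]
  · simp

theorem tf_sp0 (v : Bi m → S) (w w' : S) (x y y' : I m → S) :
    tf (sp0 v w w') x y y' = 2 * w' * x 0 * y 0 * y' 0 := by
  unfold tf
  rw [Finset.sum_eq_single 0]
  · rw [Finset.sum_eq_single 0]
    · rw [Finset.sum_eq_single 0]
      · simp only [sp0, and_self, if_true]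
        ring
      · intro k _ hk
        simp [sp0, hk]
      · simp
    · intro j _ hj
      refine Finset.sum_eq_zero fun k _ => ?_
      simp [sp0, hj]
    · simp
  · intro i _ hi
    refine Finset.sum_eq_zero fun j _ => Finset.sum_eq_zero fun k _ => ?_
    simp [sp0, hi]
  · simp

theorem map_bf {T : Type*} [CommRing T] (f : S →+* T) (c : Ix m → S) (r : Bi m) (x y : I m → S) :
    f (bf c r x y) = bf (fun e => f (c e)) r (fun i => f (x i)) fun i => f (y i) := by
  simp only [bf, map_sum, map_mul]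

theorem map_sf {T : Type*} [CommRing T] (f : S →+* T) (c : Ix m → S) (x x' y : I m → S) :
    f (sf c x x' y) = sf (fun e => f (c e)) (fun i => f (x i)) (fun i => f (x' i))
      fun i => f (y i) := by
  simp only [sf, map_sum, map_mul, map_add]

theorem map_tf {T : Type*} [CommRing T] (f : S →+* T) (c : Ix m → S) (x y y' : I m → S) :
    f (tf c x y y') = tf (fun e => f (c e)) (fun i => f (x i)) (fun i => f (y i))
      fun i => f (y' i) := by
  simp only [tf, map_sum, map_mul, map_add]

end linear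

section generic

variable (m : ℕ)

/-- Polynomials in the affine coordinates. -/
abbrev Pl (m : ℕ) (K : Type*) [CommRing K] := MvPolynomial (Fin (m + 1) ⊕ Fin (m + 1)) K

/-- The ring of the coefficients. -/
abbrev Rg (m : ℕ) := MvPolynomial (Ix m) ℚ

/-- The point `x`. -/
noncomputable def xx (K : Type*) [CommRing K] : I m → Pl m K :=
  aff fun i => (X (.inl i) : MvPolynomial (Fin (m + 1) ⊕ Fin (m + 1)) K)

/-- The point `y`. -/
noncomputable def yy (K : Type*) [CommRing K] : I m → Pl m K :=
  aff fun i => (X (.inr i) : MvPolynomial (Fin (m + 1) ⊕ Fin (m + 1)) K)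

/-- The generators of the chart ideal. -/
def gens (K : Type*) [CommRing K] (c : Ix m → K) : Set (Pl m K) :=
  Set.range (fun r : Bi m => bf (fun e => C (c e)) r (xx m K) (yy m K)) ∪
    {sf (fun e => C (c e)) (xx m K) (xx m K) (yy m K),
      tf (fun e => C (c e)) (xx m K) (yy m K) (yy m K)}

/-- The generic coefficients. -/
noncomputable def gc : Ix m → Rg m := X

/-- The generic coefficients without the first coefficient of every form. -/
noncomputable def c0 (e : Ix m) : Pl m (Rg m) :=
  C (gc m e) + sp0 (fun r => -C (gc m (.inl (r, 0, 0)))) (-C (gc m (.inr (.inl (0, 0, 0)))))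
    (-C (gc m (.inr (.inr (0, 0, 0))))) e

/-- The solution for the first coefficient of every form. -/
noncomputable def cs (e : Ix m) : Pl m (Rg m) :=
  c0 m e + sp0 (fun r => -bf (c0 m) r (xx m (Rg m)) (yy m (Rg m)))
    (-(C (C (1 / 2)) * sf (c0 m) (xx m (Rg m)) (xx m (Rg m)) (yy m (Rg m))))
    (-(C (C (1 / 2)) * tf (c0 m) (xx m (Rg m)) (yy m (Rg m)) (yy m (Rg m)))) e

theorem two_half : (2 : Pl m (Rg m)) * C (C (1 / 2)) = 1 := by
  have h : (2 : Pl m (Rg m)) = C (C 2) := by
    rw [map_ofNat, map_ofNat]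
  rw [h, ← map_mul, ← map_mul]
  norm_num

theorem bf_cs (r : Bi m) : bf (cs m) r (xx m (Rg m)) (yy m (Rg m)) = 0 := by
  unfold cs
  rw [bf_addc, bf_sp0]
  have h1 : xx m (Rg m) 0 = 1 := rfl
  have h2 : yy m (Rg m) 0 = 1 := rfl
  rw [h1, h2]
  ring

theorem sf_cs : sf (cs m) (xx m (Rg m)) (xx m (Rg m)) (yy m (Rg m)) = 0 := by
  unfold cs
  rw [sf_addc, sf_sp0]
  have h1 : xx m (Rg m) 0 = 1 := rfl
  have h2 : yy m (Rg m) 0 = 1 := rfl
  rw [h1, h2]
  linear_combination (-sf (c0 m) (xx m (Rg m)) (xx m (Rg m)) (yy m (Rg m))) * two_half m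

theorem tf_cs : tf (cs m) (xx m (Rg m)) (yy m (Rg m)) (yy m (Rg m)) = 0 := by
  unfold cs
  rw [tf_addc, tf_sp0]
  have h1 : xx m (Rg m) 0 = 1 := rfl
  have h2 : yy m (Rg m) 0 = 1 := rfl
  rw [h1, h2]
  linear_combination (-tf (c0 m) (xx m (Rg m)) (yy m (Rg m)) (yy m (Rg m))) * two_half m

/-- The endomorphism which solves for the first coefficients. -/
noncomputable def psi : Pl m (Rg m) →+* Pl m (Rg m) :=
  eval₂Hom (aeval (cs m) : MvPolynomial (Ix m) ℚ →ₐ[ℚ] Pl m (Rg m)).toRingHom X

theorem psi_C (e : Ix m) : psi m (C (gc m e)) = cs m e := by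
  rw [psi, coe_eval₂Hom, eval₂_C]
  exact aeval_X _ _

theorem psi_X (i : Fin (m + 1) ⊕ Fin (m + 1)) : psi m (X i) = X i := by
  rw [psi, coe_eval₂Hom, eval₂_X]

theorem psi_xx : (fun i => psi m (xx m (Rg m) i)) = xx m (Rg m) := by
  unfold xx
  rw [Pool.Agent.Helper47.HN.map_affI]
  simp only [psi_X]

theorem psi_yy : (fun i => psi m (yy m (Rg m) i)) = yy m (Rg m) := by
  unfold yy
  rw [Pool.Agent.Helper47.HN.map_affI]
  simp only [psi_X]

theorem le_ker : Ideal.span (gens m (Rg m) (gc m)) ≤ RingHom.ker (psi m) := by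
  rw [Ideal.span_le]
  rintro F (⟨r, rfl⟩ | rfl | rfl)
  · show psi m _ = 0
    rw [map_bf, psi_xx, psi_yy]
    simp only [psi_C]
    exact bf_cs m r
  · show psi m _ = 0
    rw [map_sf, psi_xx, psi_yy]
    simp only [psi_C]
    exact sf_cs m
  · show psi m _ = 0
    rw [map_tf, psi_xx, psi_yy]
    simp only [psi_C]
    exact tf_cs m

theorem mk_cs (e : Ix m) : Ideal.Quotient.mk (Ideal.span (gens m (Rg m) (gc m))) (cs m e) =
    Ideal.Quotient.mk (Ideal.span (gens m (Rg m) (gc m))) (C (gc m e)) := by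
  rw [Ideal.Quotient.eq]
  have h1 : xx m (Rg m) 0 = 1 := rfl
  have h2 : yy m (Rg m) 0 = 1 := rfl
  have hl : ∀ r, -bf (c0 m) r (xx m (Rg m)) (yy m (Rg m)) - C (gc m (.inl (r, 0, 0))) =
      -bf (fun e => C (gc m e)) r (xx m (Rg m)) (yy m (Rg m)) := by
    intro r
    unfold c0
    rw [bf_addc, bf_sp0, h1, h2]
    ring
  have hs : -(C (C (1 / 2)) * sf (c0 m) (xx m (Rg m)) (xx m (Rg m)) (yy m (Rg m))) -
      C (gc m (.inr (.inl (0, 0, 0)))) = -(C (C (1 / 2)) *
      sf (fun e => C (gc m e)) (xx m (Rg m)) (xx m (Rg m)) (yy m (Rg m))) := by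
    unfold c0
    rw [sf_addc, sf_sp0, h1, h2]
    linear_combination (C (gc m (.inr (.inl (0, 0, 0))))) * two_half m
  have ht : -(C (C (1 / 2)) * tf (c0 m) (xx m (Rg m)) (yy m (Rg m)) (yy m (Rg m))) -
      C (gc m (.inr (.inr (0, 0, 0)))) = -(C (C (1 / 2)) *
      tf (fun e => C (gc m e)) (xx m (Rg m)) (yy m (Rg m)) (yy m (Rg m))) := by
    unfold c0
    rw [tf_addc, tf_sp0, h1, h2]
    linear_combination (C (gc m (.inr (.inr (0, 0, 0))))) * two_half m
  rcases e with ⟨r, i, j⟩ | ⟨i, j, k⟩ | ⟨i, j, k⟩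
  · by_cases h : i = 0 ∧ j = 0
    · obtain ⟨rfl, rfl⟩ := h
      have e1 : cs m (.inl (r, 0, 0)) - C (gc m (.inl (r, 0, 0))) =
          -bf (fun e => C (gc m e)) r (xx m (Rg m)) (yy m (Rg m)) := by
        rw [← hl]
        simp only [cs, c0, sp0, and_self, if_true]
        ring
      rw [e1]
      exact (Ideal.span (gens m (Rg m) (gc m))).neg_mem (Ideal.subset_span (Or.inl ⟨r, rfl⟩))
    · have e1 : cs m (.inl (r, i, j)) - C (gc m (.inl (r, i, j))) = 0 := by
        simp only [cs, c0, sp0, if_neg h]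
        ring
      rw [e1]
      exact Ideal.zero_mem _
  · by_cases h : i = 0 ∧ j = 0 ∧ k = 0
    · obtain ⟨rfl, rfl, rfl⟩ := h
      have e1 : cs m (.inr (.inl (0, 0, 0))) - C (gc m (.inr (.inl (0, 0, 0)))) =
          -(C (C (1 / 2)) *
          sf (fun e => C (gc m e)) (xx m (Rg m)) (xx m (Rg m)) (yy m (Rg m))) := by
        rw [← hs]
        simp only [cs, c0, sp0, and_self, if_true]
        ring
      rw [e1]
      exact (Ideal.span (gens m (Rg m) (gc m))).neg_mem
        ((Ideal.span (gens m (Rg m) (gc m))).mul_mem_left _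
          (Ideal.subset_span (Or.inr (Or.inl rfl))))
    · have e1 : cs m (.inr (.inl (i, j, k))) - C (gc m (.inr (.inl (i, j, k)))) = 0 := by
        simp only [cs, c0, sp0, if_neg h]
        ring
      rw [e1]
      exact Ideal.zero_mem _
  · by_cases h : i = 0 ∧ j = 0 ∧ k = 0
    · obtain ⟨rfl, rfl, rfl⟩ := h
      have e1 : cs m (.inr (.inr (0, 0, 0))) - C (gc m (.inr (.inr (0, 0, 0)))) =
          -(C (C (1 / 2)) *
          tf (fun e => C (gc m e)) (xx m (Rg m)) (yy m (Rg m)) (yy m (Rg m))) := by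
        rw [← ht]
        simp only [cs, c0, sp0, and_self, if_true]
        ring
      rw [e1]
      exact (Ideal.span (gens m (Rg m) (gc m))).neg_mem
        ((Ideal.span (gens m (Rg m) (gc m))).mul_mem_left _
          (Ideal.subset_span (Or.inr (Or.inr rfl))))
    · have e1 : cs m (.inr (.inr (i, j, k))) - C (gc m (.inr (.inr (i, j, k)))) = 0 := by
        simp only [cs, c0, sp0, if_neg h]
        ring
      rw [e1]
      exact Ideal.zero_mem _

theorem mk_psi (F : Pl m (Rg m)) :
    Ideal.Quotient.mk (Ideal.span (gens m (Rg m) (gc m))) (psi m F) =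
      Ideal.Quotient.mk (Ideal.span (gens m (Rg m) (gc m))) F := by
  have h : (Ideal.Quotient.mk (Ideal.span (gens m (Rg m) (gc m)))).comp (psi m) =
      Ideal.Quotient.mk (Ideal.span (gens m (Rg m) (gc m))) := by
    apply MvPolynomial.ringHom_ext'
    · apply MvPolynomial.ringHom_ext
      · intro a
        have e1 : psi m (C (C a)) = C (C a) := by
          rw [psi, coe_eval₂Hom, eval₂_C]
          exact algHom_C (aeval (cs m) : MvPolynomial (Ix m) ℚ →ₐ[ℚ] Pl m (Rg m)) a
        simp only [RingHom.comp_apply, e1]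
      · intro e
        have e1 := mk_cs m e
        rw [← psi_C] at e1
        exact e1
    · intro i
      simp only [RingHom.comp_apply, psi_X]
  exact DFunLike.congr_fun h F

theorem ker_psi : RingHom.ker (psi m) = Ideal.span (gens m (Rg m) (gc m)) := by
  refine le_antisymm (fun F hF => ?_) (le_ker m)
  rw [← Ideal.Quotient.eq_zero_iff_mem, ← mk_psi, (RingHom.mem_ker).mp hF, map_zero]

theorem prime_gc : (Ideal.span (gens m (Rg m) (gc m))).IsPrime := by
  rw [← ker_psi]
  exact RingHom.ker_isPrime _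

end generic

section special

variable {m : ℕ}

theorem map_xx {K K' : Type*} [CommRing K] [CommRing K'] (φ : K →+* K') :
    (fun i => MvPolynomial.map φ (xx m K i)) = xx m K' := by
  unfold xx
  rw [Pool.Agent.Helper47.HN.map_affI]
  simp only [map_X]

theorem map_yy {K K' : Type*} [CommRing K] [CommRing K'] (φ : K →+* K') :
    (fun i => MvPolynomial.map φ (yy m K i)) = yy m K' := by
  unfold yy
  rw [Pool.Agent.Helper47.HN.map_affI]
  simp only [map_X]

theorem map_gens {K K' : Type*} [CommRing K] [CommRing K'] (φ : K →+* K') (c : Ix m → K) :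
    (Ideal.span (gens m K c)).map (MvPolynomial.map φ) =
      Ideal.span (gens m K' fun e => φ (c e)) := by
  rw [gens, gens, Ideal.map_span, Set.image_union, ← Set.range_comp, Set.image_pair]
  have h1 : (⇑(MvPolynomial.map φ : Pl m K →+* Pl m K') ∘ fun r : Bi m =>
      bf (fun e => C (c e)) r (xx m K) (yy m K)) =
      fun r : Bi m => bf (fun e => C (φ (c e))) r (xx m K') (yy m K') := by
    funext r
    rw [Function.comp_apply, map_bf, map_xx, map_yy]
    simp only [map_C]
  rw [h1, map_sf, map_tf, map_xx, map_yy]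
  simp only [map_C]

end special

end Pool.Agent.Helper92.H2
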