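import Mathlib
import Pool.Agent.Helper92.GF.Basic
import Pool.Agent.Helper92.H2.Gen0
import Pool.Agent.Helper47.H2.Norm

/-!
# Project H2: specialization of the chart ideal, exchange of the factors
-/

namespace Pool.Agent.Helper92.H2

open MvPolynomial Pool.Agent.Helper24.H2 Pool.Agent.Helper47.H2
open Pool.Agent.Helper28.HN (I Un En cr aff)

variable {m : ℕ}

theorem chart_eq (K : Type*) [CommRing K] (c : Ix m → K) :
    chartIdeal c = Ideal.span (gens m K c) := rfl

theorem map_chartIdeal {K K' : Type*} [CommRing K] [CommRing K'] (φ : K →+* K') (c : Ix m → K) :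
    (chartIdeal c).map (MvPolynomial.map φ) = chartIdeal fun e => φ (c e) :=
  map_gens φ c

theorem map_ADp {K K' : Type*} [CommRing K] [CommRing K'] (φ : K →+* K') (c : Ix m → K) :
    MvPolynomial.map φ (Ap c * Dp c) = Ap (fun e => φ (c e)) * Dp (fun e => φ (c e)) := by
  have hx : (fun i => MvPolynomial.map φ
      ((aff X : I m → MvPolynomial (Fin (m + 1)) K) i)) = aff X := by
    rw [Pool.Agent.Helper47.H2.map_affI]
    simp only [map_X]
  have h1 : MvPolynomial.map φ (Ap c) = Ap fun e => φ (c e) := by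
    unfold Ap
    rw [Pool.Agent.Helper47.H2.map_Ah, hx]
    simp only [map_C]
  have h2 : MvPolynomial.map φ (Dp c) = Dp fun e => φ (c e) := by
    unfold Dp
    rw [Pool.Agent.Helper47.H2.map_Mx_det, hx]
    simp only [map_C]
  rw [map_mul, h1, h2]

section swap

theorem sw_sw' (e : Ix m) : sw (sw e) = e := by
  rcases e with ⟨r, i, j⟩ | ⟨i, j, k⟩ | ⟨i, j, k⟩ <;> rfl

variable {S : Type*} [CommRing S] (c : Ix m → S)

theorem bf_sw' (r : Bi m) (x y : I m → S) : bf (fun e => c (sw e)) r y x = bf c r x y := by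
  unfold bf
  rw [Finset.sum_comm]
  refine Finset.sum_congr rfl fun i _ => Finset.sum_congr rfl fun j _ => ?_
  simp only [sw]
  ring

theorem sf_sw' (x y y' : I m → S) : sf (fun e => c (sw e)) y y' x = tf c x y y' := by
  unfold sf tf
  have e1 : ∀ f : I m → I m → I m → S, ∑ i, ∑ j, ∑ k, f i j k = ∑ k, ∑ i, ∑ j, f i j k := by
    intro f
    calc ∑ i, ∑ j, ∑ k, f i j k = ∑ i, ∑ k, ∑ j, f i j k :=
          Finset.sum_congr rfl fun i _ => Finset.sum_comm
      _ = ∑ k, ∑ i, ∑ j, f i j k := Finset.sum_comm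
  rw [e1]
  refine Finset.sum_congr rfl fun i _ => Finset.sum_congr rfl fun j _ =>
    Finset.sum_congr rfl fun k _ => ?_
  simp only [sw]
  ring

theorem tf_sw' (x x' y : I m → S) : tf (fun e => c (sw e)) y x x' = sf c x x' y := by
  have h := sf_sw' (fun e => c (sw e)) y x x'
  simp only [sw_sw'] at h
  exact h.symm

end swap

/-- The chart ideal and the exchange of the factors. -/
theorem rename_swap_mem {K : Type*} [CommRing K] (c : Ix m → K)
    {F : MvPolynomial (Fin (m + 1) ⊕ Fin (m + 1)) K} (hF : F ∈ chartIdeal c) :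
    rename Sum.swap F ∈ chartIdeal fun e => c (sw e) := by
  let ρ : Pl m K →+* Pl m K :=
    (rename Sum.swap : MvPolynomial (Fin (m + 1) ⊕ Fin (m + 1)) K →ₐ[K] _).toRingHom
  have hρ : ∀ F, ρ F = rename Sum.swap F := fun F => rfl
  have hx : (fun i => ρ (xx m K i)) = yy m K := by
    unfold xx yy
    rw [Pool.Agent.Helper47.H2.map_affI]
    simp only [hρ, rename_X, Sum.swap_inl]
  have hy : (fun i => ρ (yy m K i)) = xx m K := by
    unfold xx yy
    rw [Pool.Agent.Helper47.H2.map_affI]
    simp only [hρ, rename_X, Sum.swap_inr]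
  have hc : (fun e => ρ (C (c e))) = fun e => (C (c e) : Pl m K) := by
    funext e
    rw [hρ, rename_C]
  have h : chartIdeal c ≤ (chartIdeal fun e => c (sw e)).comap ρ := by
    rw [chart_eq, Ideal.span_le]
    rintro G (⟨r, rfl⟩ | rfl | rfl)
    · rw [SetLike.mem_coe, Ideal.mem_comap]
      simp only [Pool.Agent.Helper47.H2.map_bf]
      rw [hx, hy, hc, ← bf_sw' (fun e => (C (c e) : Pl m K)), chart_eq]
      exact Ideal.subset_span (Or.inl ⟨r, rfl⟩)
    · rw [SetLike.mem_coe, Ideal.mem_comap, Pool.Agent.Helper47.H2.map_sf, hx, hy, hc,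
        ← tf_sw' (fun e => (C (c e) : Pl m K)), chart_eq]
      exact Ideal.subset_span (Or.inr (Or.inr rfl))
    · rw [SetLike.mem_coe, Ideal.mem_comap, Pool.Agent.Helper47.H2.map_tf, hx, hy, hc,
        ← sf_sw' (fun e => (C (c e) : Pl m K)), chart_eq]
      exact Ideal.subset_span (Or.inr (Or.inl rfl))
  exact h hF

end Pool.Agent.Helper92.H2
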