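import Mathlib
import Pool.Agent.Helper92.H2.Gen1
import Pool.Agent.Helper47.H2.Prime

/-!
# Project H2: the chart ideal of a general complete intersection is prime
-/

namespace Pool.Agent.Helper92.H2

open MvPolynomial Pool.Agent.Helper24.H2 Pool.Agent.Helper47.H2
open Pool.Agent.Helper28.HN (I Un En cr aff)

variable {m : ℕ}

/-- For general coefficients the denominator is not a zero divisor modulo the chart ideal. -/
theorem chart_nzd (hm : 1 ≤ m) (hex : ∃ c : Ix m → ℚ, NS c ∧ Dp c ≠ 0) :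
    ∃ Δ : MvPolynomial (Ix m) ℚ, Δ ≠ 0 ∧ ∀ (K : Type) [Field K] [Algebra ℚ K] (c : Ix m → K),
      aeval c Δ ≠ 0 → ∀ F : MvPolynomial (Fin (m + 1) ⊕ Fin (m + 1)) K,
        rename Sum.inl (Ap c * Dp c) * F ∈ chartIdeal c → F ∈ chartIdeal c := by
  obtain ⟨c1, hns, hD⟩ := hex
  have hprime : (chartIdeal (gc m)).IsPrime := prime_gc m
  have hden : (rename Sum.inl (Ap (gc m) * Dp (gc m)) : Pl m (Rg m)) ∉ chartIdeal (gc m) := by
    intro h
    have h1 := Ideal.mem_map_of_mem (MvPolynomial.map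
      ((aeval c1 : MvPolynomial (Ix m) ℚ →ₐ[ℚ] ℚ) : MvPolynomial (Ix m) ℚ →+* ℚ)) h
    have e1 : (fun e => ((aeval c1 : MvPolynomial (Ix m) ℚ →ₐ[ℚ] ℚ) :
        MvPolynomial (Ix m) ℚ →+* ℚ) (gc m e)) = c1 := by
      funext e
      exact aeval_X c1 e
    rw [map_chartIdeal, MvPolynomial.map_rename, map_ADp, e1] at h1
    obtain ⟨P, hP, hle, hdom⟩ := exists_dom hm hns.Ap_ne hD
    exact mul_ne_zero hns.Ap_ne hD (hdom _ (hle h1))
  obtain ⟨Δ, hΔ, H⟩ := Pool.Agent.Helper92.GF.exists_nzd.{0, 0, 0} (chartIdeal (gc m))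
    (rename Sum.inl (Ap (gc m) * Dp (gc m))) fun F hF =>
      (hprime.mem_or_mem hF).resolve_left hden
  refine ⟨Δ, hΔ, fun K _ _ c hc F hF => ?_⟩
  have e1 : (fun e => ((aeval c : MvPolynomial (Ix m) ℚ →ₐ[ℚ] K) :
      MvPolynomial (Ix m) ℚ →+* K) (gc m e)) = c := by
    funext e
    exact aeval_X c e
  have h1 := H K ((aeval c : MvPolynomial (Ix m) ℚ →ₐ[ℚ] K) : MvPolynomial (Ix m) ℚ →+* K) hc F
  rw [map_chartIdeal, MvPolynomial.map_rename, map_ADp, e1] at h1
  exact h1 hF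

/-- If the denominator is not a zero divisor, the chart ideal is the prime of the component which
dominates the space of the `x`. -/
theorem chart_eq_dom (hm : 1 ≤ m) {K : Type} [Field K] {c : Ix m → K} (hns : NS c)
    (hD : Dp c ≠ 0) (hnz : ∀ F : MvPolynomial (Fin (m + 1) ⊕ Fin (m + 1)) K,
      rename Sum.inl (Ap c * Dp c) * F ∈ chartIdeal c → F ∈ chartIdeal c) :
    (chartIdeal c).IsPrime ∧ Dom (chartIdeal c) := by
  obtain ⟨P, hP, hle, hdom⟩ := exists_dom hm hns.Ap_ne hD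
  have heq : chartIdeal c = P := by
    refine le_antisymm hle fun F hF => ?_
    obtain ⟨n, hn⟩ := vanish_of_mem hns hle hdom hF
    have h1 := hn _ _ _ (onX_q (chartIdeal c) le_rfl)
    rw [aeval_q, ← map_mul, aeval_qx, ← map_pow, ← map_mul, Ideal.Quotient.eq_zero_iff_mem] at h1
    clear hn
    induction n with
    | zero => rwa [pow_zero, one_mul] at h1
    | succ n ih =>
      apply ih
      apply hnz
      rw [← mul_assoc, ← pow_succ']
      exact h1
  rw [heq]
  exact ⟨hP, hdom⟩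

/-- No nonzero polynomial in the coordinates of `y` is in the ideal. -/
theorem dom_y {K : Type*} [Field K] {c : Ix m → K}
    (h : Dom (chartIdeal fun e => c (sw e))) (Φ : MvPolynomial (Fin (m + 1)) K)
    (hΦ : rename Sum.inr Φ ∈ chartIdeal c) : Φ = 0 := by
  apply h
  have h1 := rename_swap_mem c hΦ
  rw [rename_rename] at h1
  exact h1

end Pool.Agent.Helper92.H2
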