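import Mathlib
import Pool.Agent.Helper47.H2.MapL

/-!
# Project H2: scaling
-/

namespace Pool.Agent.Helper92.H2

open Pool.Agent.Helper24.H2 Pool.Agent.Helper47.H2
open Pool.Agent.Helper28.HN (I Un En cr aff)

variable {m : ℕ} {S : Type*} [CommRing S] (c : Ix m → S)

/-- The factors of the rows. -/
def dr (m : ℕ) (a : S) (r : Fin m) : S := if r.val + 1 < m then a else a ^ 2

/-- The factor of the determinant. -/
def pf (m : ℕ) (a : S) : S := ∏ r : Fin m, dr m a r

theorem Mx_smul (a : S) (x : I m → S) :
    Mx c (fun i => a * x i) = Matrix.diagonal (dr m a) * Mx c x := by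
  ext r b
  rw [Matrix.diagonal_mul]
  exact lx_smul_left c r a x _

theorem Nx_smul (a : S) (y : I m → S) :
    Nx c (fun i => a * y i) = Matrix.diagonal (dr m a) * Nx c y := by
  ext r b
  rw [Matrix.diagonal_mul]
  exact ly_smul_right c r a _ y

theorem det_Mx_smul (a : S) (x : I m → S) :
    (Mx c (fun i => a * x i)).det = pf m a * (Mx c x).det := by
  rw [Mx_smul, Matrix.det_mul, Matrix.det_diagonal]
  rfl

theorem det_Nx_smul (a : S) (y : I m → S) :
    (Nx c (fun i => a * y i)).det = pf m a * (Nx c y).det := by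
  rw [Nx_smul, Matrix.det_mul, Matrix.det_diagonal]
  rfl

theorem adj_smul (M : Matrix (Fin m) (Fin m) S) (a : S) (b : Fin m → S) :
    (Matrix.diagonal (dr m a) * M).adjugate.mulVec (fun r => dr m a r * b r) =
      fun i => pf m a * M.adjugate.mulVec b i := by
  have h1 : (fun r => dr m a r * b r) = (Matrix.diagonal (dr m a)).mulVec b := by
    funext r
    rw [Matrix.mulVec_diagonal]
  rw [h1, Matrix.adjugate_mul_distrib, ← Matrix.mulVec_mulVec, Matrix.mulVec_mulVec b,
    Matrix.adjugate_mul, Matrix.det_diagonal, Matrix.smul_mulVec, Matrix.one_mulVec,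
    Matrix.mulVec_smul]
  rfl

theorem Y1_smul (a : S) (x : I m → S) : Y1 c (fun i => a * x i) = fun i => pf m a * Y1 c x i := by
  have h : ∀ i, (Mx c (fun i => a * x i)).adjugate.mulVec
      (fun r => lx c r (fun i => a * x i) (Pi.single 1 1)) i =
      pf m a * (Mx c x).adjugate.mulVec (fun r => lx c r x (Pi.single 1 1)) i := by
    intro i
    have e : (fun r => lx c r (fun i => a * x i) (Pi.single 1 1)) =
        fun r => dr m a r * lx c r x (Pi.single 1 1) := by
      funext r
      exact lx_smul_left c r a x _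
    rw [e, Mx_smul, adj_smul]
  funext i
  refine Fin.cases ?_ (fun j => Fin.cases ?_ (fun b => ?_) j) i
  · simp only [Y1, Fin.cons_zero, mul_zero]
  · simp only [Y1, Fin.cons_succ, Fin.cons_zero]
    exact det_Mx_smul c a x
  · simp only [Y1, Fin.cons_succ, Pi.neg_apply]
    rw [h]
    ring

theorem xh_smul (a : S) (y : I m → S) : xh c (fun i => a * y i) = fun i => pf m a * xh c y i := by
  have h : ∀ i, (Nx c (fun i => a * y i)).adjugate.mulVec
      (fun r => ly c r (Pi.single (Fin.last (m + 1)) 1) (fun i => a * y i)) i =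
      pf m a * (Nx c y).adjugate.mulVec
        (fun r => ly c r (Pi.single (Fin.last (m + 1)) 1) y) i := by
    intro i
    have e : (fun r => ly c r (Pi.single (Fin.last (m + 1)) 1) (fun i => a * y i)) =
        fun r => dr m a r * ly c r (Pi.single (Fin.last (m + 1)) 1) y := by
      funext r
      exact ly_smul_right c r a _ y
    rw [e, Nx_smul, adj_smul]
  funext i
  refine Fin.cases ?_ (fun j => ?_) i
  · simp only [xh, Fin.cons_zero, mul_zero]
  · simp only [xh, Fin.cons_succ]
    refine Fin.lastCases ?_ (fun b => ?_) j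
    · simp only [vh, Fin.snoc_last]
      exact det_Nx_smul c a y
    · simp only [vh, Fin.snoc_castSucc, Pi.neg_apply]
      rw [h]
      ring

theorem Ah_smul (a : S) (x : I m → S) :
    Ah c (fun i => a * x i) = a * pf m a ^ 2 * Ah c x := by
  rw [Ah, Y1_smul, tf_smul1, tf_smul2, tf_smul3, Ah]
  ring

theorem kap_smul (a : S) (y : I m → S) :
    sf c (xh c (fun i => a * y i)) (xh c (fun i => a * y i)) (fun i => a * y i) =
      a * pf m a ^ 2 * sf c (xh c y) (xh c y) y := by
  rw [xh_smul, sf_smul1, sf_smul2, sf_smul3]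
  ring

theorem pf_ne {k : Type*} [Field k] {a : k} (h : a ≠ 0) : pf m a ≠ 0 := by
  refine Finset.prod_ne_zero_iff.mpr fun r _ => ?_
  unfold dr
  split_ifs
  · exact h
  · exact pow_ne_zero 2 h

end Pool.Agent.Helper92.H2
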