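import Mathlib
import Pool.Agent.Helper92.H2.Clos2
import Pool.Agent.Helper92.H2.Scale
import Pool.Agent.Helper92.H2.Gen2
import Pool.Agent.Helper92.HN.Full
import Pool.Agent.Helper47.H2.Prime
import Pool.Agent.Helper15.PotDense

/-!
# Project H2: potential density from a chain of curves
-/

namespace Pool.Agent.Helper92.H2

open MvPolynomial Pool.Agent.Helper24.H2 Pool.Agent.Helper28.H2 Pool.Agent.Helper47.H2
open Pool.Agent.Helper23.H2
open Pool.Agent.Helper28.HN (I Un En cr aff)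
open Pool.Agent.Helper38.HN (val toFrac toFrac_injective val_generic)
open AlgebraicGeometry CategoryTheory Pool.Agent.Helper15

section pt

variable {m : ℕ} {K' : Type} [Field K'] {B : Type} [Field B] (φ : Polynomial K' →+* B)
  {c : Ix m → K'} {X : I m → Polynomial K'}

theorem good_A (hx : φ (X 0) ≠ 0)
    (hA : φ (Ah (fun e => Polynomial.C (c e)) X) ≠ 0) :
    Ah (fun e => φ (Polynomial.C (c e)))
      (aff fun i : Fin (m + 1) => φ (X i.succ) / φ (X 0)) ≠ 0 := by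
  rw [Pool.Agent.Helper47.H2.map_Ah] at hA
  rw [Pool.Agent.Helper92.HN.aff_div (fun i => φ (X i)) hx, Ah_smul]
  have h := inv_ne_zero hx
  exact mul_ne_zero (mul_ne_zero h (pow_ne_zero _ (pf_ne h))) hA

theorem good_D (hx : φ (X 0) ≠ 0)
    (hA : φ (Mx (fun e => Polynomial.C (c e)) X).det ≠ 0) :
    (Mx (fun e => φ (Polynomial.C (c e)))
      (aff fun i : Fin (m + 1) => φ (X i.succ) / φ (X 0))).det ≠ 0 := by
  rw [Pool.Agent.Helper47.H2.map_Mx_det] at hA
  rw [Pool.Agent.Helper92.HN.aff_div (fun i => φ (X i)) hx, det_Mx_smul]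
  exact mul_ne_zero (pf_ne (inv_ne_zero hx)) hA

theorem good_N (hx : φ (X 0) ≠ 0)
    (hA : φ (Nx (fun e => Polynomial.C (c e)) X).det ≠ 0) :
    (Nx (fun e => φ (Polynomial.C (c e)))
      (aff fun i : Fin (m + 1) => φ (X i.succ) / φ (X 0))).det ≠ 0 := by
  rw [Pool.Agent.Helper47.H2.map_Nx_det] at hA
  rw [Pool.Agent.Helper92.HN.aff_div (fun i => φ (X i)) hx, det_Nx_smul]
  exact mul_ne_zero (pf_ne (inv_ne_zero hx)) hA

theorem good_K (hx : φ (X 0) ≠ 0)
    (hA : φ (sf (fun e => Polynomial.C (c e)) (xh (fun e => Polynomial.C (c e)) X)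
      (xh (fun e => Polynomial.C (c e)) X) X) ≠ 0) :
    sf (fun e => φ (Polynomial.C (c e)))
      (xh (fun e => φ (Polynomial.C (c e))) (aff fun i : Fin (m + 1) => φ (X i.succ) / φ (X 0)))
      (xh (fun e => φ (Polynomial.C (c e))) (aff fun i : Fin (m + 1) => φ (X i.succ) / φ (X 0)))
      (aff fun i : Fin (m + 1) => φ (X i.succ) / φ (X 0)) ≠ 0 := by
  rw [Pool.Agent.Helper47.H2.map_sf] at hA
  rw [Pool.Agent.Helper92.HN.aff_div (fun i => φ (X i)) hx, kap_smul]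
  simp only [Pool.Agent.Helper47.H2.map_xh] at hA
  have h := inv_ne_zero hx
  exact mul_ne_zero (mul_ne_zero h (pow_ne_zero _ (pf_ne h))) hA

end pt

section orb

variable {m : ℕ} {K K' k : Type} [Field K] [Field K'] [Field k] [Algebra K K'] [Algebra K' k]

/-- A function on the component which dominates the space of the `x` and vanishes at all points over
`K'` is zero. -/
theorem mem_of_points [CharZero K'] [IsAlgClosed k] [CharZero k] (hm : 1 ≤ m) (c : Ix m → K)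
    (x0 ξ0 y1 : I m → K') (ho : Orb (k := k) (fun e => algebraMap K K' (c e)) x0 ξ0 y1)
    (hd : (dblX hm fun e => algebraMap K' k (algebraMap K K' (c e))).Dense)
    (hd' : (dblX hm fun e => algebraMap K' k (algebraMap K K' (c e))).swap.Dense)
    (hns : NS c) (hns' : NS fun e => c (swp e)) :
    Dp c ≠ 0 ∧ ∀ P : Ideal (MvPolynomial (Fin (m + 1) ⊕ Fin (m + 1)) K), P.IsPrime →
      chartIdeal c ≤ P → Dom P → ∀ F : MvPolynomial (Fin (m + 1) ⊕ Fin (m + 1)) K,
      (∀ φ : (MvPolynomial (Fin (m + 1) ⊕ Fin (m + 1)) K ⧸ P) →ₐ[K] K',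
        φ (Ideal.Quotient.mk P F) = 0) → F ∈ P := by
  set cK : Ix m → K' := fun e => algebraMap K K' (c e) with hcK
  have hon : ∀ N, OnX (fun e => Polynomial.C (cK e)) (ch cK x0 ξ0 y1 N).1 (ch cK x0 ξ0 y1 N).2 :=
    fun N => onX_ch hm ho.l0 ho.l1 ho.q0 ho.q1 ho.s0 ho.s1 ho.s2 N
  set ψ := toFrac K' k with hψ
  have hinj : Function.Injective ψ := toFrac_injective (K' := K') k
  have hne : ∀ {p : Polynomial K'}, p ≠ 0 → ψ p ≠ 0 := fun hp => (map_ne_zero_iff _ hinj).mpr hp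
  -- the generic point of the curve `1`
  letI : Algebra K (FractionRing (Polynomial k)) :=
    (ψ.comp (Polynomial.C.comp (algebraMap K K'))).toAlgebra
  have hp1 := chart_point (hon 1) ψ (hne (ho.hx 1)) (hne (ho.hy 1))
  have hA1 := good_A (c := cK) ψ (hne (ho.hx 1)) (hne (ho.hA 1))
  have hD1 := good_D (c := cK) ψ (hne (ho.hx 1)) (hne (ho.hD 1))
  have hN1 := good_N (c := cK) ψ (hne (ho.hy 1)) (hne (ho.hN 1))
  have hK1 := good_K (c := cK) ψ (hne (ho.hy 1)) (hne (ho.hK 1 le_rfl))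
  have hDp : Dp c ≠ 0 := by
    intro h0
    have h1 := aeval_Dp (S := FractionRing (Polynomial k)) c
      (fun i : Fin (m + 1) => ψ ((ch cK x0 ξ0 y1 1).1 i.succ) / ψ ((ch cK x0 ξ0 y1 1).1 0))
    rw [h0, map_zero] at h1
    exact hD1 h1.symm
  refine ⟨hDp, fun P hprime hP hdom F hF => ?_⟩
  have hval : ∀ N, val ψ (ch cK x0 ξ0 y1 N).1 (ch cK x0 ξ0 y1 N).2 F = 0 := by
    intro N
    set X := (ch cK x0 ξ0 y1 N).1 with hX
    set Y := (ch cK x0 ξ0 y1 N).2 with hY
    have hT : ({t : K' | (Ah (fun e => Polynomial.C (cK e)) X *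
        (Mx (fun e => Polynomial.C (cK e)) X).det).IsRoot t}).Finite :=
      Polynomial.finite_setOfPred_isRoot (mul_ne_zero (ho.hA N) (ho.hD N))
    refine val_generic (ho.hx N) (ho.hy N) F hT (fun t ht hx hy => ?_) ψ hinj
    rw [Set.mem_ofPred_eq, Polynomial.IsRoot.def, Polynomial.eval_mul, mul_eq_zero, not_or] at ht
    have hpt := chart_point (hon N) (Polynomial.evalRingHom t) hx hy
    have hA := good_A (c := cK) (Polynomial.evalRingHom t) hx ht.1
    have hD := good_D (c := cK) (Polynomial.evalRingHom t) hx ht.2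
    simp only [Polynomial.coe_evalRingHom, Polynomial.eval_C] at hpt hA hD
    set x : Fin (m + 1) → K' := fun i => (X i.succ).eval t / (X 0).eval t with hxdef
    set y : Fin (m + 1) → K' := fun i => (Y i.succ).eval t / (Y 0).eval t with hydef
    have hker : ∀ G ∈ P, (aeval (Sum.elim x y) : MvPolynomial _ K →ₐ[K] K') G = 0 :=
      fun G hG => eval_of_mem hns hP hdom hG hpt hA hD
    have h1 := hF (Ideal.Quotient.liftₐ P (aeval (Sum.elim x y)) hker)
    have h2 : aeval (Sum.elim x y) F = 0 := h1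
    have e : (Polynomial.evalRingHom t).comp (Polynomial.C.comp (algebraMap K K')) =
        algebraMap K K' := by
      ext a
      simp
    rw [val, e]
    exact h2
  rcases closure_F hm c x0 ξ0 y1 ho ho.hξ hon hd hd' hns hns' F hval with h | h
  · exact mem_of_vanish hns.Ap_ne hDp hprime hP hdom h
  · exact mem_of_vanish' hns hprime hP hdom h hp1 hA1 hD1 hN1 hK1

end orb

section final

variable {m : ℕ}

/-- The final theorem from the three inputs. -/
theorem full_of (hm : 1 ≤ m)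
    (hdens : ∃ Δ : MvPolynomial (Ix m) ℚ, Δ ≠ 0 ∧ ∀ (k : Type) [Field k] [IsAlgClosed k]
      [Algebra ℚ k] (c : Ix m → k), aeval c Δ ≠ 0 →
        (dblX hm c).Dense ∧ (dblX hm c).swap.Dense)
    (hNS : ∃ Δ : MvPolynomial (Ix m) ℚ, Δ ≠ 0 ∧ ∀ (K : Type) [Field K] [NumberField K]
      (c : Ix m → K), aeval c Δ ≠ 0 → NS c ∧ Dp c ≠ 0)
    (horb : ∃ Δ : MvPolynomial (Ix m) ℚ, Δ ≠ 0 ∧
    ∀ (K : Type) [Field K] [NumberField K] (c : Ix m → K), aeval c Δ ≠ 0 →
      ∃ (K' : Type) (_ : Field K') (_ : NumberField K') (_ : Algebra K K') (k : Type) (_ : Field k)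
        (_ : IsAlgClosed k) (_ : CharZero k) (_ : Algebra K' k) (x0 ξ0 y1 : I m → K'),
        Orb (k := k) (fun e => algebraMap K K' (c e)) x0 ξ0 y1) :
    ∃ Δ : MvPolynomial (Ix m) ℚ, Δ ≠ 0 ∧ ∀ (K : Type) [Field K] [NumberField K]
    (c : Ix m → K), aeval c Δ ≠ 0 →
      (chartIdeal c).IsPrime ∧
      (∀ Φ : MvPolynomial (Fin (m + 1)) K,
        rename Sum.inl Φ ∈ chartIdeal c ∨ rename Sum.inr Φ ∈ chartIdeal c → Φ = 0) ∧
      Algebra.trdeg K (MvPolynomial (Fin (m + 1) ⊕ Fin (m + 1)) K ⧸ chartIdeal c) =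
        (m + 1 : ℕ) ∧
      ∀ (X : Scheme.{0}) (s : X ⟶ Spec (CommRingCat.of K)) [IrreducibleSpace X],
        BirationalOver K X (Spec (CommRingCat.of
          (MvPolynomial (Fin (m + 1) ⊕ Fin (m + 1)) K ⧸ chartIdeal c))) s
          (Spec.map (CommRingCat.ofHom (algebraMap K
            (MvPolynomial (Fin (m + 1) ⊕ Fin (m + 1)) K ⧸ chartIdeal c)))) →
        PotentiallyDense K X s := by
  obtain ⟨Δ1, hΔ1, H1⟩ := hdens
  obtain ⟨Δ2, hΔ2, H2⟩ := hNS
  obtain ⟨Δ3, hΔ3, H3⟩ := horb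
  obtain ⟨Δ4, hΔ4, H4⟩ : ∃ Δ : MvPolynomial (Ix m) ℚ, Δ ≠ 0 ∧
      ∀ (K : Type) [Field K] [Algebra ℚ K] (c : Ix m → K),
      aeval c Δ ≠ 0 → ∀ F : MvPolynomial (Fin (m + 1) ⊕ Fin (m + 1)) K,
        rename Sum.inl (Ap c * Dp c) * F ∈ chartIdeal c → F ∈ chartIdeal c := by
    apply chart_nzd hm
    obtain ⟨c, hc⟩ := Pool.Agent.Helper92.HN.exists_rat hΔ2
    exact ⟨c, H2 ℚ c hc⟩
  have hsw : Function.Injective (sw (m := m)) := Function.LeftInverse.injective sw_sw'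
  have hr : ∀ {g : Ix m → Ix m}, Function.Injective g → ∀ {Δ : MvPolynomial (Ix m) ℚ}, Δ ≠ 0 →
      rename g Δ ≠ 0 := fun hg _ hΔ => (map_ne_zero_iff _ (rename_injective _ hg)).mpr hΔ
  refine ⟨Δ1 * (Δ2 * rename swp Δ2 * rename sw Δ2) * Δ3 * (Δ4 * rename sw Δ4),
    mul_ne_zero (mul_ne_zero (mul_ne_zero hΔ1 (mul_ne_zero (mul_ne_zero hΔ2
    (hr swp_injective hΔ2)) (hr hsw hΔ2))) hΔ3) (mul_ne_zero hΔ4 (hr hsw hΔ4)),
    fun K _ _ c hc => ?_⟩
  simp only [map_mul, mul_ne_zero_iff, aeval_rename] at hc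
  obtain ⟨⟨⟨h1, ⟨h2, h2'⟩, h2''⟩, h3⟩, h4, h4'⟩ := hc
  obtain ⟨K', _, _, _, k, _, _, _, _, x0, ξ0, y1, ho⟩ := H3 K c h3
  obtain ⟨hns, hDp⟩ := H2 K c h2
  have hns' : NS fun e => c (swp e) := (H2 K _ h2').1
  obtain ⟨hns'', hDp''⟩ := H2 K (fun e => c (sw e)) h2''
  have e1 : aeval (fun e => algebraMap K' k (algebraMap K K' (c e))) Δ1 =
      algebraMap K' k (algebraMap K K' (aeval c Δ1)) := by
    have e2 : aeval (fun e => algebraMap K K' (c e)) Δ1 = algebraMap K K' (aeval c Δ1) :=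
      aeval_algebraMap_apply _ _ _
    rw [← e2]
    exact aeval_algebraMap_apply _ _ _
  obtain ⟨hd, hd'⟩ := H1 k (fun e => algebraMap K' k (algebraMap K K' (c e))) (by
    rw [e1]
    exact (map_ne_zero_iff _ (algebraMap K' k).injective).mpr
      ((map_ne_zero_iff _ (algebraMap K K').injective).mpr h1))
  obtain ⟨-, hmem⟩ := mem_of_points (k := k) hm c x0 ξ0 y1 ho hd hd' hns hns'
  obtain ⟨hprime, hdom⟩ := chart_eq_dom hm hns hDp (H4 K c h4)
  obtain ⟨-, hdom'⟩ := chart_eq_dom hm hns'' hDp'' (H4 K (fun e => c (sw e)) h4')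
  refine ⟨hprime, fun Φ hΦ => ?_, trdeg_eq' hns.Ap_ne hDp le_rfl hdom, fun X s _ hX => ?_⟩
  · rcases hΦ with hΦ | hΦ
    · exact hdom Φ hΦ
    · exact dom_y hdom' Φ hΦ
  · have hfin : FiniteDimensional K K' := by
      have : IsScalarTower ℚ K K' := inferInstance
      exact Module.Finite.of_restrictScalars_finite ℚ K K'
    refine PotentiallyDense.of_birational K X _ s _ hX ⟨K', inferInstance, inferInstance, hfin,
      dense_ratPts_spec K K' _ fun g hg => ?_⟩
    obtain ⟨F, rfl⟩ := Ideal.Quotient.mk_surjective g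
    exact Ideal.Quotient.eq_zero_iff_mem.mpr (hmem (chartIdeal c) hprime le_rfl hdom F hg)

end final

end Pool.Agent.Helper92.H2
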