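import Mathlib
import Pool.Agent.Helper92.H2.Glue
import Pool.Agent.Helper92.HN.Final
import Pool.Agent.Helper92.CI.Twt
import Pool.Agent.Helper23.H2.Dens
import Pool.Agent.Helper77.H2.NS

/-!
# Project H2: the final theorem for type 2 and the natural statement for two factors, from the
existence of configurations and the chain of curves
-/

namespace Pool.Agent.Helper92.H2

open MvPolynomial Pool.Agent.Helper24.H2 Pool.Agent.Helper47.H2 Pool.Agent.Helper23.H2
  AlgebraicGeometry CategoryTheory Pool.Agent.Helper15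
open Pool.Agent.Helper28.HN (I Un En cr aff ee)
open Pool.Agent.Helper28.H2 (Gs Orb)

theorem main_of {m : ℕ} (hm : 4 ≤ m)
    (hcfg : ∃ Δ : MvPolynomial (Ix m) ℚ, Δ ≠ 0 ∧
    ∀ (K : Type) [Field K] [NumberField K] (c : Ix m → K), aeval c Δ ≠ 0 →
      ∃ (L : Type) (_ : Field L) (_ : NumberField L) (_ : Algebra K L) (k : Un m → L),
        (∀ i, Eqn (fun e => algebraMap K L (c e)) k i = 0) ∧
        Pp (fun e => algebraMap K L (c e)) k ≠ 0 ∧
        (Matrix.of fun i j => eval k (pderiv j (Gs (fun e => algebraMap K L (c e))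
          (ee hm i)))).det ≠ 0)
    (horb : ∃ Δ : MvPolynomial (Ix m) ℚ, Δ ≠ 0 ∧
    ∀ (K : Type) [Field K] [NumberField K] (c : Ix m → K), aeval c Δ ≠ 0 →
      ∃ (K' : Type) (_ : Field K') (_ : NumberField K') (_ : Algebra K K') (k : Type) (_ : Field k)
        (_ : IsAlgClosed k) (_ : CharZero k) (_ : Algebra K' k) (x0 ξ0 y1 : I m → K'),
        Orb (k := k) (fun e => algebraMap K K' (c e)) x0 ξ0 y1) :
    ∃ Δ : MvPolynomial (Ix m) ℚ, Δ ≠ 0 ∧ ∀ (K : Type) [Field K] [NumberField K]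
    (c : Ix m → K), aeval c Δ ≠ 0 →
      (chartIdeal c).IsPrime ∧
      (∀ Φ : MvPolynomial (Fin (m + 1)) K,
        rename Sum.inl Φ ∈ chartIdeal c ∨ rename Sum.inr Φ ∈ chartIdeal c → Φ = 0) ∧
      Algebra.trdeg K (MvPolynomial (Fin (m + 1) ⊕ Fin (m + 1)) K ⧸ chartIdeal c) =
        (m + 1 : ℕ) ∧
      ∀ (X : Scheme.{0}) (s : X ⟶ Spec (CommRingCat.of K)) [IrreducibleSpace X],
        BirationalOver K X (Spec (CommRingCat.of
          (MvPolynomial (Fin (m + 1) ⊕ Fin (m + 1)) K ⧸ chartIdeal c))) s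
          (Spec.map (CommRingCat.ofHom (algebraMap K
            (MvPolynomial (Fin (m + 1) ⊕ Fin (m + 1)) K ⧸ chartIdeal c)))) →
        PotentiallyDense K X s :=
  full_of (by omega) (dense_both (by omega)) (Pool.Agent.Helper77.H2.exists_ns_of hm hcfg) horb

/-- The natural statement for two factors. -/
theorem two_of
    (hfin : ∀ m : ℕ, 4 ≤ m → ∃ Δ : MvPolynomial (Ix m) ℚ, Δ ≠ 0 ∧
    ∀ (K : Type) [Field K] [NumberField K]
    (c : Ix m → K), aeval c Δ ≠ 0 →
      (chartIdeal c).IsPrime ∧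
      (∀ Φ : MvPolynomial (Fin (m + 1)) K,
        rename Sum.inl Φ ∈ chartIdeal c ∨ rename Sum.inr Φ ∈ chartIdeal c → Φ = 0) ∧
      Algebra.trdeg K (MvPolynomial (Fin (m + 1) ⊕ Fin (m + 1)) K ⧸ chartIdeal c) =
        (m + 1 : ℕ) ∧
      ∀ (X : Scheme.{0}) (s : X ⟶ Spec (CommRingCat.of K)) [IrreducibleSpace X],
        BirationalOver K X (Spec (CommRingCat.of
          (MvPolynomial (Fin (m + 1) ⊕ Fin (m + 1)) K ⧸ chartIdeal c))) s
          (Spec.map (CommRingCat.ofHom (algebraMap K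
            (MvPolynomial (Fin (m + 1) ⊕ Fin (m + 1)) K ⧸ chartIdeal c)))) →
        PotentiallyDense K X s)
    {n : ℕ} (hn : 5 ≤ n) (d : Fin n → Fin 2 → ℕ) (hd : ∀ i r, 0 < d i r)
    (hs : ∀ r, ∑ i, d i r = n + 1) :
    ∃ Δ : MvPolynomial (Σ i, CI.Mono n (d i)) ℚ, Δ ≠ 0 ∧
    ∀ (K : Type) [Field K] [NumberField K] (a : (Σ i, CI.Mono n (d i)) → K),
      aeval a Δ ≠ 0 → CI.Good K (CI.ideal d a) n := by
  obtain ⟨m, rfl⟩ : ∃ m, n = m + 1 := ⟨n - 1, by omega⟩
  obtain ⟨t, ht⟩ := CI.exists_type d hd hs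
  by_cases h01 : t 0 = t 1
  · refine CI.type1 (by omega) (i0 := t 0) fun i r => ?_
    rw [ht i r]
    fin_cases r
    · rfl
    · show (if t 1 = i then 2 else 1) = _
      rw [h01]
  · exact CI.type2_of (fun i => ht i 0) (fun i => ht i 1) h01 (hfin m (by omega))

end Pool.Agent.Helper92.H2
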