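import Mathlib
import Pool.Agent.Helper92.H2.Main
import Pool.Agent.Helper76.H2.Cfg
import Pool.Agent.Helper28.H2.OrbF

/-!
# The final theorem for type 2 and the natural statement for two factors
-/

namespace Pool.Agent.Helper92.H2

open MvPolynomial Pool.Agent.Helper24.H2 Pool.Agent.Helper47.H2
  AlgebraicGeometry CategoryTheory Pool.Agent.Helper15

theorem final {m : ℕ} (hm : 4 ≤ m) :
    ∃ Δ : MvPolynomial (Ix m) ℚ, Δ ≠ 0 ∧ ∀ (K : Type) [Field K] [NumberField K]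
    (c : Ix m → K), aeval c Δ ≠ 0 →
      (chartIdeal c).IsPrime ∧
      (∀ Φ : MvPolynomial (Fin (m + 1)) K,
        rename Sum.inl Φ ∈ chartIdeal c ∨ rename Sum.inr Φ ∈ chartIdeal c → Φ = 0) ∧
      Algebra.trdeg K (MvPolynomial (Fin (m + 1) ⊕ Fin (m + 1)) K ⧸ chartIdeal c) =
        (m + 1 : ℕ) ∧
      ∀ (X : Scheme.{0}) (s : X ⟶ Spec (CommRingCat.of K)) [IrreducibleSpace X],
        BirationalOver K X (Spec (CommRingCat.of
          (MvPolynomial (Fin (m + 1) ⊕ Fin (m + 1)) K ⧸ chartIdeal c))) s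
          (Spec.map (CommRingCat.ofHom (algebraMap K
            (MvPolynomial (Fin (m + 1) ⊕ Fin (m + 1)) K ⧸ chartIdeal c)))) →
        PotentiallyDense K X s :=
  main_of hm (Pool.Agent.Helper76.H2.exists_cfg hm) (Pool.Agent.Helper28.H2.OrbF.orb hm)

theorem two {n : ℕ} (hn : 5 ≤ n) (d : Fin n → Fin 2 → ℕ) (hd : ∀ i r, 0 < d i r)
    (hs : ∀ r, ∑ i, d i r = n + 1) :
    ∃ Δ : MvPolynomial (Σ i, CI.Mono n (d i)) ℚ, Δ ≠ 0 ∧
    ∀ (K : Type) [Field K] [NumberField K] (a : (Σ i, CI.Mono n (d i)) → K),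
      aeval a Δ ≠ 0 → CI.Good K (CI.ideal d a) n :=
  two_of (fun _ hm => final hm) hn d hd hs

end Pool.Agent.Helper92.H2
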